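import Pool.Agent.H46.CH.DW

/-!
# MP_64fb07_lc, part D: blow-ups of trees have NLC-width at most 2
-/

set_option autoImplicit false

namespace Pool.Agent.H6.CHD.TW

open Classical Pool.Agent.H8.VR Pool.Agent.H69.VR Pool.Agent.H46.CH

/-- the colours of the blocks in the tree with the root `r` -/
noncomputable def tcl (r i : ℕ) : Fin 2 := if i = r then 1 else 0

theorem tcl_one (r i : ℕ) : tcl r i = 1 ↔ i = r := by
  unfold tcl
  split_ifs with h
  · exact ⟨fun _ => h, fun _ => rfl⟩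
  · exact ⟨fun g => absurd g (by decide), fun g => absurd g h⟩

/-- `k` is `j` or an ancestor of `j` -/
def An (p : ℕ → ℕ) (k j : ℕ) : Prop := Relation.ReflTransGen (fun a b => 0 < a ∧ p a = b) j k

theorem An.refl (p : ℕ → ℕ) (k : ℕ) : An p k k := Relation.ReflTransGen.refl

theorem An.par {p : ℕ → ℕ} {k j : ℕ} (h : An p k j) (hj : j ≠ k) : 0 < j ∧ An p k (p j) := by
  rcases Relation.ReflTransGen.cases_head h with h | ⟨c, ⟨h1, h2⟩, h3⟩
  · exact absurd h hj
  · rw [← h2] at h3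
    exact ⟨h1, h3⟩

theorem An.chd {p : ℕ → ℕ} {k j : ℕ} (hj : 0 < j) (h : An p k (p j)) : An p k j :=
  Relation.ReflTransGen.head ⟨hj, rfl⟩ h

theorem An.le {p : ℕ → ℕ} (hp : ∀ i, 0 < i → p i < i) {k j : ℕ} (h : An p k j) : k ≤ j := by
  induction h with
  | refl => exact le_refl _
  | tail _ h ih =>
    have := hp _ h.1
    omega

theorem aux {A : Type} [Finite A] (R : ℕ → A → A → Prop)
    (b : A → ℕ) (p : ℕ → ℕ) (hp : ∀ i, 0 < i → p i < i)
    (hR : ∀ x y, (R 0 x y ↔ b y = b x ∨ (0 < b y ∧ p (b y) = b x))) : ∀ (n : ℕ) (X : Set A),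
    X.ncard = n → ∀ r, (∃ x ∈ X, b x = r) → (∀ x ∈ X, b x ≠ r → 0 < b x ∧
      (∃ y ∈ X, b y = p (b x)) ∧ ∀ y, b y = b x → y ∈ X) →
    ∀ c : A → Fin 2, (∀ x ∈ X, c x = tcl r (b x)) → NLC 2 1 R X c := by
  intro n
  induction n using Nat.strong_induction_on with
  | _ n ih =>
  rintro X hX r ⟨x₀, hx₀, hr₀⟩ h1 c hc
  by_cases h2 : ∃ x ∈ X, b x ≠ r
  · -- a child of the root
    obtain ⟨x, hx, hxr, hpx⟩ : ∃ x ∈ X, b x ≠ r ∧ p (b x) = r := by
      have h3 : ∃ k, ∃ x ∈ X, b x ≠ r ∧ b x = k := by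
        obtain ⟨x, hx, hxr⟩ := h2
        exact ⟨b x, x, hx, hxr, rfl⟩
      obtain ⟨x, hx, hxr, hk⟩ := Nat.find_spec h3
      refine ⟨x, hx, hxr, ?_⟩
      by_contra h4
      obtain ⟨h5, ⟨y, hy, hyx⟩, _⟩ := h1 x hx hxr
      have h6 := hp _ h5
      exact Nat.find_min h3 (by rw [← hk]; exact h6) ⟨y, hy, by rw [hyx]; exact h4, hyx⟩
    obtain ⟨hk0, _, _⟩ := h1 x hx hxr
    have hrk : r < b x := by
      have := hp _ hk0
      omega
    set k := b x with hk
    set Y : Set A := {y | y ∈ X ∧ An p k (b y)} with hYdef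
    have hxY : x ∈ Y := ⟨hx, An.refl p k⟩
    have hYX : Y ⊆ X := fun y hy => hy.1
    have hx₀' : x₀ ∈ X \ Y := by
      refine ⟨hx₀, fun h => ?_⟩
      have := An.le hp h.2
      omega
    have hYlt : Y.ncard < n := by
      rw [← hX]
      exact Set.ncard_lt_ncard ⟨hYX, fun h => hx₀'.2 (h hx₀)⟩ (Set.toFinite _)
    have hXlt : (X \ Y).ncard < n := by
      rw [← hX]
      exact Set.ncard_lt_ncard ⟨Set.sdiff_subset, fun h => (h hx).2 hxY⟩ (Set.toFinite _)
    have gY := ih _ hYlt Y rfl k ⟨x, hxY, rfl⟩ (by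
      intro y hy hyk
      obtain ⟨h3, h4⟩ := An.par hy.2 hyk
      have h5 := An.le hp hy.2
      obtain ⟨_, ⟨z, hz, hzy⟩, h6⟩ := h1 y hy.1 (by omega)
      refine ⟨h3, ⟨z, ⟨hz, ?_⟩, hzy⟩, fun z hz => ⟨h6 z hz, ?_⟩⟩
      · rw [hzy]
        exact h4
      · rw [hz]
        exact hy.2) (fun y => tcl k (b y)) (fun _ _ => rfl)
    have gX := ih _ hXlt (X \ Y) rfl r ⟨x₀, hx₀', hr₀⟩ (by
      intro y hy hyr
      obtain ⟨h3, ⟨z, hz, hzy⟩, h6⟩ := h1 y hy.1 hyr
      refine ⟨h3, ⟨z, ⟨hz, fun h => hy.2 ⟨hy.1, ?_⟩⟩, hzy⟩, fun z hz => ⟨h6 z hz, fun h =>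
        hy.2 ⟨hy.1, ?_⟩⟩⟩
      · have h7 := h.2
        rw [hzy] at h7
        exact An.chd h3 h7
      · have h7 := h.2
        rw [hz] at h7
        exact h7) (fun y => tcl r (b y)) (fun _ _ => rfl)
    have eX : X \ Y ∪ Y = X := by
      rw [Set.sdiff_union_self, Set.union_eq_self_of_subset_right hYX]
    have := NLC.op (k := 2) (m := 1) (R := R) (X \ Y) Y c (fun y => tcl r (b y))
      (fun y => tcl k (b y)) gX gY Set.disjoint_sdiff_left (fun _ p q => p = 1 ∧ q = 1)
      (fun _ _ _ => False) id (fun _ => 0) ?_ ?_ ?_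
    · rw [eX] at this
      exact this
    · intro a ha b' hb' i hi
      obtain rfl : i = 0 := by omega
      have hna : ¬ An p k (b a) := fun h => ha.2 ⟨ha.1, h⟩
      constructor
      · rw [hR]
        show _ ↔ tcl r (b a) = 1 ∧ tcl k (b b') = 1
        rw [tcl_one, tcl_one]
        constructor
        · rintro (h | ⟨h, h'⟩)
          · have h7 := hb'.2
            rw [h] at h7
            exact absurd h7 hna
          · by_cases hbk : b b' = k
            · refine ⟨?_, hbk⟩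
              rw [← h', hbk, hpx]
            · have := (An.par hb'.2 hbk).2
              rw [h'] at this
              exact absurd this hna
        · rintro ⟨h, h'⟩
          rw [h, h']
          exact Or.inr ⟨hk0, hpx⟩
      · rw [hR]
        refine ⟨?_, fun h => h.elim⟩
        rintro (h | ⟨h, h'⟩)
        · rw [h] at hna
          exact hna hb'.2
        · refine hna (An.chd h ?_)
          rw [h']
          exact hb'.2
    · intro a ha
      exact hc a ha.1
    · intro a ha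
      rw [hc a ha.1]
      have h5 := An.le hp ha.2
      unfold tcl
      rw [if_neg (by omega)]
  · -- one block
    have h3 : ∀ x ∈ X, b x = r := fun x hx => by
      by_contra h
      exact h2 ⟨x, hx, h⟩
    have hc0 : ∀ x ∈ X, c x = 1 := by
      intro x hx
      rw [hc x hx, h3 x hx]
      exact (tcl_one r r).2 rfl
    by_cases h4 : X \ {x₀} = ∅
    · have : X = {x₀} := by
        ext y
        constructor
        · intro hy
          by_contra h
          have : y ∈ X \ {x₀} := ⟨hy, h⟩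
          rw [h4] at this
          exact this
        · intro hy
          rw [Set.mem_singleton_iff.1 hy]
          exact hx₀
      rw [this]
      exact NLC.pt x₀ c
    · obtain ⟨y, hy⟩ := Set.nonempty_iff_ne_empty.2 h4
      have hXlt : (X \ {x₀}).ncard < n := by
        rw [← hX]
        exact Set.ncard_lt_ncard ⟨Set.sdiff_subset, fun h => (h hx₀).2 rfl⟩ (Set.toFinite _)
      have gX := ih _ hXlt (X \ {x₀}) rfl r ⟨y, hy, h3 y hy.1⟩ (fun z hz hzr =>
        absurd (h3 z hz.1) hzr) (fun _ => 1) (fun z hz => by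
          rw [h3 z hz.1]
          exact ((tcl_one r r).2 rfl).symm)
      have eX : X \ {x₀} ∪ {x₀} = X := by
        rw [Set.union_singleton, Set.insert_sdiff_singleton, Set.insert_eq_of_mem hx₀]
      have := NLC.op (k := 2) (m := 1) (R := R) (X \ {x₀}) {x₀} c (fun _ => 1) (fun _ => 1) gX
        (NLC.pt x₀ _) (Set.disjoint_singleton_right.2 fun h => h.2 rfl) (fun _ _ _ => True)
        (fun _ _ _ => True) id id ?_ ?_ ?_
      · rw [eX] at this
        exact this
      · intro a ha b' hb' i hi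
        obtain rfl := Set.mem_singleton_iff.1 hb'
        obtain rfl : i = 0 := by omega
        rw [hR, hR, h3 a ha.1, h3 _ hx₀]
        simp
      · intro a ha
        exact hc0 a ha.1
      · intro a ha
        rw [Set.mem_singleton_iff.1 ha]
        exact hc0 x₀ hx₀

end Pool.Agent.H6.CHD.TW

namespace Pool.Agent.H6.CHD

open Pool.Agent.H8.VR Pool.Agent.H46.CH

theorem pf_TW2 : Pool.Agent.H46.CH.T_TW2 := by
  rintro A _ _ R ⟨T, b, p, hb, hp, hR⟩
  obtain ⟨x, hx⟩ := (hb 0).2 (Nat.zero_le T)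
  refine ⟨fun y => TW.tcl 0 (b y), TW.aux R b p hp hR _ Set.univ rfl 0
    ⟨x, Set.mem_univ x, hx⟩ ?_ _ fun _ _ => rfl⟩
  intro y _ hy
  have h1 : 0 < b y := Nat.pos_of_ne_zero hy
  have h2 := (hb (b y)).1 ⟨y, rfl⟩
  have h3 := hp _ h1
  obtain ⟨z, hz⟩ := (hb (p (b y))).2 (by omega)
  exact ⟨h1, ⟨z, Set.mem_univ z, hz⟩, fun z _ => Set.mem_univ z⟩

end Pool.Agent.H6.CHD
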